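import Pool.Agent.X141.FDGroup

/-!
# MP_0b4a43_pr, Q1: yes

For every topological group `G` (no local compactness, compact generation or amenability needed),
every adapted symmetric Borel probability measure `μ` (no moment assumption needed) and every
continuous non-constant `f : G → ℝ` converging along `μ`-random walks, the span of the orbit `G.f`
is infinite dimensional.
-/

set_option autoImplicit false

namespace Pool.Agent.Results.MP_0b4a43_pr.OrbitSpanInfinite

open MeasureTheory Pool.Agent.X141.FD

/-- **MP_0b4a43_pr, Q1.** -/
theorem result (G : Type*) [Group G] [TopologicalSpace G] [IsTopologicalGroup G]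
    [MeasurableSpace G] [BorelSpace G] (μ : Measure G) [IsProbabilityMeasure μ]
    (hadapted : ∀ H : Subgroup G, IsClosed (H : Set G) → H ≠ ⊤ → μ (H : Set G) < 1)
    (hsymm : ∀ A : Set G, MeasurableSet A → μ (Inv.inv ⁻¹' A) = μ A)
    (f : G → ℝ) (hf : Continuous f) (hnc : ¬ ∃ c : ℝ, ∀ x, f x = c)
    (hconv : ConvergesAlongWalks μ f) :
    ¬ FiniteDimensional ℝ (orbitSpan f) := fun hfin =>
  hnc (constant_of_finite_orbit μ
    (fun H hH h1 => by
      by_contra hne
      exact absurd h1 (hadapted H hH hne).ne) hsymm f hf hconv hfin)

end Pool.Agent.Results.MP_0b4a43_pr.OrbitSpanInfinite
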